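import Mathlib

/-!
Generalized star height of Thérien's language `A₂`: every word language recognised by the pair
`σ = (1 2)`, `τ = (1 2 3 4)` of permutations of four points has generalized star height at most one,
and `A₂` is a Boolean combination of such languages and a parity language.
-/

set_option autoImplicit false

namespace Pool.Agent.H815R3.StarHeight

/-- Concatenation of two languages over a two letter alphabet (`false = σ`, `true = τ`). -/
def cat (L M : Set (List Bool)) : Set (List Bool) := Set.image2 (fun x y => x ++ y) L M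

/-- Kleene star. -/
def st (L : Set (List Bool)) : Set (List Bool) :=
  {w | ∃ l : List (List Bool), (∀ x ∈ l, x ∈ L) ∧ w = l.flatten}

/-- Closure of a family of languages (together with the atoms) under union, concatenation and
complement. -/
def Cl (G : Set (Set (List Bool))) : Set (Set (List Bool)) :=
  {L | ∀ S : Set (Set (List Bool)), G ⊆ S →
          (∅ : Set (List Bool)) ∈ S →
          ({[]} : Set (List Bool)) ∈ S →
          ({[false]} : Set (List Bool)) ∈ S →
          ({[true]} : Set (List Bool)) ∈ S →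
          (∀ X ∈ S, ∀ Y ∈ S, X ∪ Y ∈ S) →
          (∀ X ∈ S, ∀ Y ∈ S, cat X Y ∈ S) →
          (∀ X ∈ S, Xᶜ ∈ S) → L ∈ S}

section closure

variable {G : Set (Set (List Bool))}

lemma base_mem {X : Set (List Bool)} (hX : X ∈ G) : X ∈ Cl G :=
  fun _ h _ _ _ _ _ _ _ => h hX

lemma empty_mem : (∅ : Set (List Bool)) ∈ Cl G := fun _ _ h _ _ _ _ _ _ => h

lemma nil_mem : ({[]} : Set (List Bool)) ∈ Cl G := fun _ _ _ h _ _ _ _ _ => h

lemma false_mem : ({[false]} : Set (List Bool)) ∈ Cl G := fun _ _ _ _ h _ _ _ _ => h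

lemma true_mem : ({[true]} : Set (List Bool)) ∈ Cl G := fun _ _ _ _ _ h _ _ _ => h

lemma union_mem {X Y : Set (List Bool)} (hX : X ∈ Cl G) (hY : Y ∈ Cl G) : X ∪ Y ∈ Cl G :=
  fun S h1 h2 h3 h4 h5 h6 h7 h8 =>
    h6 X (hX S h1 h2 h3 h4 h5 h6 h7 h8) Y (hY S h1 h2 h3 h4 h5 h6 h7 h8)

lemma cat_mem {X Y : Set (List Bool)} (hX : X ∈ Cl G) (hY : Y ∈ Cl G) : cat X Y ∈ Cl G :=
  fun S h1 h2 h3 h4 h5 h6 h7 h8 =>
    h7 X (hX S h1 h2 h3 h4 h5 h6 h7 h8) Y (hY S h1 h2 h3 h4 h5 h6 h7 h8)

lemma compl_mem {X : Set (List Bool)} (hX : X ∈ Cl G) : Xᶜ ∈ Cl G :=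
  fun S h1 h2 h3 h4 h5 h6 h7 h8 => h8 X (hX S h1 h2 h3 h4 h5 h6 h7 h8)

lemma inter_mem {X Y : Set (List Bool)} (hX : X ∈ Cl G) (hY : Y ∈ Cl G) : X ∩ Y ∈ Cl G := by
  have h := compl_mem (union_mem (compl_mem hX) (compl_mem hY))
  have e : (Xᶜ ∪ Yᶜ)ᶜ = X ∩ Y := by
    rw [Set.compl_union, compl_compl, compl_compl]
  rwa [e] at h

lemma Cl_mono_empty {X : Set (List Bool)} (hX : X ∈ Cl ∅) : X ∈ Cl G :=
  fun S _ h2 h3 h4 h5 h6 h7 h8 => hX S (Set.empty_subset _) h2 h3 h4 h5 h6 h7 h8

end closure

lemma mem_cat_of {L M : Set (List Bool)} {u v : List Bool} (hu : u ∈ L) (hv : v ∈ M) :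
    u ++ v ∈ cat L M := ⟨u, hu, v, hv, rfl⟩

lemma nil_mem_st (L : Set (List Bool)) : [] ∈ st L := ⟨[], by simp, rfl⟩

lemma st_append {L : Set (List Bool)} {u v : List Bool} (hu : u ∈ st L) (hv : v ∈ L) :
    u ++ v ∈ st L := by
  obtain ⟨l, hl, rfl⟩ := hu
  refine ⟨l ++ [v], ?_, by simp⟩
  intro x hx
  rcases List.mem_append.1 hx with h | h
  · exact hl x h
  · rw [List.mem_singleton] at h
    rw [h]; exact hv

/-- The star of a single letter is star-free. -/
lemma st_letter (b : Bool) :
    st ({[b]} : Set (List Bool)) =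
      (cat (cat (∅ : Set (List Bool))ᶜ {[!b]}) (∅ : Set (List Bool))ᶜ)ᶜ := by
  ext w
  constructor
  · rintro ⟨l, hl, rfl⟩ ⟨x, ⟨y, _, z, hz, hyz⟩, t, _, hxt⟩
    have h1 : (!b) ∈ l.flatten := by
      rw [← hxt, ← hyz, Set.mem_singleton_iff.1 hz]
      simp
    rw [List.mem_flatten] at h1
    obtain ⟨s, hs, hbs⟩ := h1
    have h2 := hl s hs
    rw [Set.mem_singleton_iff] at h2
    rw [h2, List.mem_singleton] at hbs
    cases b <;> simp at hbs
  · intro hw
    have key : ∀ c ∈ w, c = b := by
      intro c hc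
      by_contra hne
      apply hw
      obtain ⟨s, t, rfl⟩ := List.append_of_mem hc
      have hcb : c = !b := by
        cases c <;> cases b <;> simp_all
      refine ⟨s ++ [c], ⟨s, by simp, [c], by rw [hcb]; rfl, rfl⟩, t, by simp, by simp⟩
    refine ⟨w.map (fun c => [c]), ?_, ?_⟩
    · intro x hx
      rw [List.mem_map] at hx
      obtain ⟨c, hc, rfl⟩ := hx
      rw [key c hc]; rfl
    · induction w with
      | nil => rfl
      | cons a w ih =>
        have := ih (fun h => hw (by
          obtain ⟨x, ⟨y, hy, z, hz, hyz⟩, t, ht, hxt⟩ := h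
          refine ⟨a :: x, ⟨a :: y, by simp, z, hz, ?_⟩, t, ht, ?_⟩
          · simp only [List.cons_append]; rw [← hyz]
          · simp only [List.cons_append]; rw [← hxt])) (fun c hc => key c (List.mem_cons_of_mem _ hc))
        simp only [List.map_cons, List.flatten_cons, List.cons_append, List.nil_append]
        rw [← this]

lemma st_letter_mem (G : Set (Set (List Bool))) (b : Bool) :
    st ({[b]} : Set (List Bool)) ∈ Cl G := by
  rw [st_letter]
  apply compl_mem
  apply cat_mem
  · apply cat_mem (compl_mem empty_mem)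
    cases b
    · exact true_mem
    · exact false_mem
  · exact compl_mem empty_mem

/-! ### Automata -/

section automata

variable {Q : Type} (δ : Q → Bool → Q)

/-- All words of `L` lead from state `p` to state `q`. -/
def Maps (L : Set (List Bool)) (p q : Q) : Prop := ∀ w ∈ L, List.foldl δ p w = q

variable {δ}

lemma Maps.cat {L M : Set (List Bool)} {p q r : Q} (h1 : Maps δ L p q) (h2 : Maps δ M q r) :
    Maps δ (cat L M) p r := by
  rintro w ⟨u, hu, v, hv, rfl⟩
  simp only [List.foldl_append]
  rw [h1 u hu, h2 v hv]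

lemma Maps.union {L M : Set (List Bool)} {p q : Q} (h1 : Maps δ L p q) (h2 : Maps δ M p q) :
    Maps δ (L ∪ M) p q := by
  rintro w (h | h)
  · exact h1 w h
  · exact h2 w h

lemma Maps.letter {b : Bool} {p q : Q} (h : δ p b = q) :
    Maps δ ({[b]} : Set (List Bool)) p q := by
  intro w hw
  rw [Set.mem_singleton_iff.1 hw]
  exact h

lemma Maps.st {L : Set (List Bool)} {p : Q} (h : Maps δ L p p) : Maps δ (st L) p p := by
  rintro w ⟨l, hl, rfl⟩
  induction l with
  | nil => rfl
  | cons a l ih =>
    rw [List.flatten_cons, List.foldl_append, h a (hl a (by simp))]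
    exact ih (fun x hx => hl x (by simp [hx]))

/-- Appending the letter `b` to a word of `L` gives a word of `M`. -/
def Step (L : Set (List Bool)) (b : Bool) (M : Set (List Bool)) : Prop := ∀ w ∈ L, w ++ [b] ∈ M

lemma Step.cat {L M M' : Set (List Bool)} {b : Bool} (h : Step M b M') :
    Step (cat L M) b (StarHeight.cat L M') := by
  rintro w ⟨u, hu, v, hv, rfl⟩
  exact ⟨u, hu, v ++ [b], h v hv, by simp⟩

lemma Step.snoc {L M : Set (List Bool)} {b : Bool} (h : [b] ∈ M) : Step L b (StarHeight.cat L M) :=
  fun _ hw => ⟨_, hw, [b], h, rfl⟩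

lemma Step.one {L : Set (List Bool)} {b : Bool} : Step L b (StarHeight.cat L {[b]}) :=
  fun _ hw => ⟨_, hw, [b], rfl, rfl⟩

lemma Step.close {K M : Set (List Bool)} {b : Bool} (h : Step M b K) :
    Step (StarHeight.cat (StarHeight.st K) M) b (StarHeight.st K) := by
  rintro w ⟨u, hu, v, hv, rfl⟩
  simp only [List.append_assoc]
  exact st_append hu (h v hv)

lemma Step.star {b : Bool} : Step (StarHeight.st {[b]}) b (StarHeight.st {[b]}) :=
  fun _ hw => st_append hw rfl

lemma Step.starL {L : Set (List Bool)} {b : Bool} (h : [b] ∈ L) :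
    Step (StarHeight.st L) b (StarHeight.st L) :=
  fun _ hw => st_append hw h

lemma Step.mono {L M M' : Set (List Bool)} {b : Bool} (h : Step L b M) (hM : M ⊆ M') :
    Step L b M' := fun w hw => hM (h w hw)

/-- Adding a star which may be empty. -/
lemma Step.thenStar {L M N : Set (List Bool)} {b : Bool} (h : Step L b M) :
    Step L b (StarHeight.cat M (StarHeight.st N)) :=
  fun w hw => ⟨w ++ [b], h w hw, [], nil_mem_st _, by simp⟩

/-- A family of languages satisfying the local rules is the family of languages of an automaton. -/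
theorem family_eq (E : Q → Set (List Bool)) (q0 : Q) (h0 : [] ∈ E q0)
    (h1 : ∀ q b, Step (E q) b (E (δ q b))) (h2 : ∀ q, Maps δ (E q) q0 q) (q : Q) :
    E q = {w | List.foldl δ q0 w = q} := by
  have key : ∀ w : List Bool, w ∈ E (List.foldl δ q0 w) := by
    intro w
    induction w using List.reverseRecOn with
    | nil => exact h0
    | append_singleton w b ih =>
      rw [List.foldl_append]
      exact h1 _ _ w ih
  ext w
  constructor
  · exact fun hw => h2 q w hw
  · intro hw
    have := key w
    rw [Set.mem_ofPred_eq] at hw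
    rwa [hw] at this

end automata

/-! ### Parity of the length -/

/-- A letter. -/
abbrev A : Set (List Bool) := {[false]} ∪ {[true]}

lemma letter_mem_A (b : Bool) : [b] ∈ A := by
  cases b
  · exact Or.inl rfl
  · exact Or.inr rfl

lemma A_mem (G : Set (Set (List Bool))) : A ∈ Cl G := union_mem false_mem true_mem

/-- length parity automaton -/
def δl : Bool → Bool → Bool := fun q _ => !q

/-- the two length parity languages -/
def El : Bool → Set (List Bool)
  | false => st (cat A A)
  | true => cat (st (cat A A)) A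

lemma El_eq (q : Bool) : El q = {w | List.foldl δl false w = q} := by
  apply family_eq El false (nil_mem_st _)
  · intro q b
    cases q
    · exact Step.snoc (letter_mem_A b)
    · exact Step.close (Step.snoc (letter_mem_A b))
  · have hK : Maps δl (cat A A) false false := by
      apply Maps.cat (q := true)
      · exact Maps.union (Maps.letter rfl) (Maps.letter rfl)
      · exact Maps.union (Maps.letter rfl) (Maps.letter rfl)
    intro q
    cases q
    · exact Maps.st hK
    · exact Maps.cat (Maps.st hK) (Maps.union (Maps.letter rfl) (Maps.letter rfl))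

/-! ### Parity of the number of `σ` -/

/-- parity automaton for the letter `σ = false` -/
def δs : Bool → Bool → Bool := fun q b => if b then q else !q

/-- `τ ∪ σ τ* σ` -/
def Ks : Set (List Bool) := {[true]} ∪ cat (cat {[false]} (st {[true]})) {[false]}

/-- the two languages -/
def Es : Bool → Set (List Bool)
  | false => st Ks
  | true => cat (st Ks) (cat {[false]} (st {[true]}))

lemma Es_eq (q : Bool) : Es q = {w | List.foldl δs false w = q} := by
  apply family_eq Es false (nil_mem_st _)
  · intro q b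
    cases q <;> cases b
    · exact Step.snoc ⟨[false], rfl, [], nil_mem_st _, rfl⟩
    · exact Step.starL (Or.inl rfl)
    · exact Step.close (Step.one.mono Set.subset_union_right)
    · exact Step.cat (Step.cat Step.star)
  · have hK : Maps δs Ks false false := by
      apply Maps.union (Maps.letter rfl)
      apply Maps.cat (q := true)
      · exact Maps.cat (q := true) (Maps.letter rfl) (Maps.st (Maps.letter rfl))
      · exact Maps.letter rfl
    intro q
    cases q
    · exact Maps.st hK
    · exact Maps.cat (Maps.st hK)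
        (Maps.cat (q := true) (Maps.letter rfl) (Maps.st (Maps.letter rfl)))

/-! ### The four point action -/

/-- `σ = (0 1)`, `τ = (0 1 2 3)` -/
def δ4 : Fin 4 → Bool → Fin 4 := fun q b => if b then ![1, 2, 3, 0] q else ![1, 0, 2, 3] q

/-- from `0` to `2` avoiding `0` -/
def M2 : Set (List Bool) := cat (cat A {[true]}) (st {[false]})
/-- from `0` to `3` avoiding `0` -/
def M3 : Set (List Bool) := cat (cat M2 {[true]}) (st {[false]})
/-- first return to `0` -/
def K0 : Set (List Bool) := cat A {[false]} ∪ cat M3 {[true]}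

/-- words leading from `0` to `q` -/
def E0 : Fin 4 → Set (List Bool) := ![st K0, cat (st K0) A, cat (st K0) M2, cat (st K0) M3]

lemma E0_eq (q : Fin 4) : E0 q = {w | List.foldl δ4 0 w = q} := by
  apply family_eq E0 0 (nil_mem_st _)
  · intro q b
    fin_cases q <;> cases b
    · exact Step.snoc (letter_mem_A _)
    · exact Step.snoc (letter_mem_A _)
    · exact Step.close (Step.one.mono Set.subset_union_left)
    · exact Step.cat Step.one.thenStar
    · exact Step.cat (Step.cat Step.star)
    · exact Step.cat Step.one.thenStar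
    · exact Step.cat (Step.cat Step.star)
    · exact Step.close (Step.one.mono Set.subset_union_right)
  · have hA : Maps δ4 A 0 1 := Maps.union (Maps.letter rfl) (Maps.letter rfl)
    have h2 : Maps δ4 M2 0 2 := Maps.cat (q := 2) (Maps.cat (q := 1) hA (Maps.letter rfl))
      (Maps.st (Maps.letter rfl))
    have h3 : Maps δ4 M3 0 3 := Maps.cat (q := 3) (Maps.cat (q := 2) h2 (Maps.letter rfl))
      (Maps.st (Maps.letter rfl))
    have hK : Maps δ4 K0 0 0 := Maps.union (Maps.cat (q := 1) hA (Maps.letter rfl))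
      (Maps.cat (q := 3) h3 (Maps.letter rfl))
    intro q
    fin_cases q
    · exact Maps.st hK
    · exact Maps.cat (Maps.st hK) hA
    · exact Maps.cat (Maps.st hK) h2
    · exact Maps.cat (Maps.st hK) h3

/-- from `1` to `2` avoiding `1` -/
def N2 : Set (List Bool) := cat {[true]} (st {[false]})
/-- from `1` to `3` avoiding `1` -/
def N3 : Set (List Bool) := cat (cat N2 {[true]}) (st {[false]})
/-- from `1` to `0` avoiding `1` -/
def N0 : Set (List Bool) := {[false]} ∪ cat N3 {[true]}
/-- first return to `1` -/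
def K1 : Set (List Bool) := cat N0 A

/-- words leading from `1` to `q` -/
def E1 : Fin 4 → Set (List Bool) := ![cat (st K1) N0, st K1, cat (st K1) N2, cat (st K1) N3]

lemma E1_eq (q : Fin 4) : E1 q = {w | List.foldl δ4 1 w = q} := by
  apply family_eq E1 1 (nil_mem_st _)
  · intro q b
    fin_cases q <;> cases b
    · exact Step.close (Step.snoc (letter_mem_A _))
    · exact Step.close (Step.snoc (letter_mem_A _))
    · exact Step.snoc (Or.inl rfl)
    · exact Step.snoc ⟨[true], rfl, [], nil_mem_st _, rfl⟩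
    · exact Step.cat (Step.cat Step.star)
    · exact Step.cat Step.one.thenStar
    · exact Step.cat (Step.cat Step.star)
    · exact Step.cat (Step.one.mono Set.subset_union_right)
  · have h2 : Maps δ4 N2 1 2 := Maps.cat (q := 2) (Maps.letter rfl) (Maps.st (Maps.letter rfl))
    have h3 : Maps δ4 N3 1 3 := Maps.cat (q := 3) (Maps.cat (q := 2) h2 (Maps.letter rfl))
      (Maps.st (Maps.letter rfl))
    have h0 : Maps δ4 N0 1 0 := Maps.union (Maps.letter rfl)
      (Maps.cat (q := 3) h3 (Maps.letter rfl))
    have hK : Maps δ4 K1 1 1 := Maps.cat (q := 0) h0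
      (Maps.union (Maps.letter rfl) (Maps.letter rfl))
    intro q
    fin_cases q
    · exact Maps.cat (Maps.st hK) h0
    · exact Maps.st hK
    · exact Maps.cat (Maps.st hK) h2
    · exact Maps.cat (Maps.st hK) h3

/-! ### The six state automaton of `A₂` -/

/-- `σ = (0 1)(3 4)`, `τ = (0 2 3 5)` -/
def δ6 : Fin 6 → Bool → Fin 6 := fun q b =>
  if b then ![2, 1, 3, 5, 4, 0] q else ![1, 0, 2, 4, 3, 5] q

/-- `σ τ*` -/
def X' : Set (List Bool) := cat {[false]} (st {[true]})
/-- `σ τ* σ` -/
def X : Set (List Bool) := cat (cat {[false]} (st {[true]})) {[false]}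
/-- `τ σ*` -/
def Y' : Set (List Bool) := cat {[true]} (st {[false]})
/-- `τ σ* τ` -/
def Y : Set (List Bool) := cat (cat {[true]} (st {[false]})) {[true]}
/-- `σ τ* σ ∪ τ σ* τ (σ τ* σ)* τ σ* τ` -/
def P : Set (List Bool) := X ∪ cat (cat Y (st X)) Y

/-- words leading from `0` to `q` -/
def E6 : Fin 6 → Set (List Bool) :=
  ![st P, cat (st P) X', cat (st P) Y', cat (st P) (cat Y (st X)),
    cat (st P) (cat (cat Y (st X)) X'), cat (st P) (cat (cat Y (st X)) Y')]

lemma step_X' : Step X' false X := Step.one

lemma step_Y' : Step Y' true Y := Step.one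

lemma step_back : Step (cat (cat Y (st X)) X') false (cat Y (st X)) := by
  rintro w ⟨u, ⟨y, hy, x, hx, rfl⟩, v, hv, rfl⟩
  exact ⟨y, hy, x ++ (v ++ [false]), st_append hx (step_X' v hv), by simp⟩

lemma E6_eq (q : Fin 6) : E6 q = {w | List.foldl δ6 0 w = q} := by
  apply family_eq E6 0 (nil_mem_st _)
  · intro q b
    fin_cases q <;> cases b
    · exact Step.snoc ⟨[false], rfl, [], nil_mem_st _, rfl⟩
    · exact Step.snoc ⟨[true], rfl, [], nil_mem_st _, rfl⟩
    · exact Step.close (step_X'.mono Set.subset_union_left)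
    · exact Step.cat (Step.cat Step.star)
    · exact Step.cat (Step.cat Step.star)
    · exact Step.cat step_Y'.thenStar
    · exact Step.cat (Step.snoc ⟨[false], rfl, [], nil_mem_st _, rfl⟩)
    · exact Step.cat (Step.snoc ⟨[true], rfl, [], nil_mem_st _, rfl⟩)
    · exact Step.cat step_back
    · exact Step.cat (Step.cat (Step.cat Step.star))
    · exact Step.cat (Step.cat (Step.cat Step.star))
    · exact Step.close ((Step.cat step_Y').mono Set.subset_union_right)
  · have hX' : Maps δ6 X' 0 1 := Maps.cat (q := 1) (Maps.letter rfl) (Maps.st (Maps.letter rfl))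
    have hX : Maps δ6 X 0 0 := Maps.cat (q := 1) hX' (Maps.letter rfl)
    have hY' : Maps δ6 Y' 0 2 := Maps.cat (q := 2) (Maps.letter rfl) (Maps.st (Maps.letter rfl))
    have hY : Maps δ6 Y 0 3 := Maps.cat (q := 2) hY' (Maps.letter rfl)
    have kX' : Maps δ6 X' 3 4 := Maps.cat (q := 4) (Maps.letter rfl) (Maps.st (Maps.letter rfl))
    have kX : Maps δ6 X 3 3 := Maps.cat (q := 4) kX' (Maps.letter rfl)
    have kY' : Maps δ6 Y' 3 5 := Maps.cat (q := 5) (Maps.letter rfl) (Maps.st (Maps.letter rfl))
    have kY : Maps δ6 Y 3 0 := Maps.cat (q := 5) kY' (Maps.letter rfl)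
    have h3 : Maps δ6 (cat Y (st X)) 0 3 := Maps.cat hY (Maps.st kX)
    have hP : Maps δ6 P 0 0 := Maps.union hX (Maps.cat h3 kY)
    intro q
    fin_cases q
    · exact Maps.st hP
    · exact Maps.cat (Maps.st hP) hX'
    · exact Maps.cat (Maps.st hP) hY'
    · exact Maps.cat (Maps.st hP) h3
    · exact Maps.cat (Maps.st hP) (Maps.cat h3 kX')
    · exact Maps.cat (Maps.st hP) (Maps.cat h3 kY')

/-! ### Combining -/

/-- Reachable states of the product of the five automata. -/
def R : List (Fin 6 × Fin 4 × Fin 4 × Bool × Bool) :=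
  [(0, 0, 1, false, false), (0, 0, 2, true, true), (0, 1, 0, false, true), (0, 1, 3, true, false),
   (0, 2, 0, true, false), (0, 2, 3, false, true), (0, 3, 1, true, true), (0, 3, 2, false, false),
   (1, 0, 1, true, false), (1, 0, 3, false, true), (1, 1, 0, true, true), (1, 1, 2, false, false),
   (1, 2, 1, false, true), (1, 2, 3, true, false), (1, 3, 0, false, false), (1, 3, 2, true, true),
   (2, 0, 2, false, true), (2, 0, 3, true, false), (2, 1, 2, true, false), (2, 1, 3, false, true),
   (2, 2, 0, false, false), (2, 2, 1, true, true), (2, 3, 0, true, true), (2, 3, 1, false, false),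
   (3, 0, 1, false, true), (3, 0, 2, true, false), (3, 1, 0, false, false), (3, 1, 3, true, true),
   (3, 2, 0, true, true), (3, 2, 3, false, false), (3, 3, 1, true, false), (3, 3, 2, false, true),
   (4, 0, 1, true, true), (4, 0, 3, false, false), (4, 1, 0, true, false), (4, 1, 2, false, true),
   (4, 2, 1, false, false), (4, 2, 3, true, true), (4, 3, 0, false, true), (4, 3, 2, true, false),
   (5, 0, 2, false, false), (5, 0, 3, true, true), (5, 1, 2, true, true), (5, 1, 3, false, false),
   (5, 2, 0, false, true), (5, 2, 1, true, false), (5, 3, 0, true, false), (5, 3, 1, false, true)]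

/-- The states of the four last automata which go with the state `0` of the first one. -/
def acc : List (Fin 4 × Fin 4 × Bool × Bool) :=
  [(0, 1, false, false), (0, 2, true, true), (1, 0, false, true), (1, 3, true, false), (2, 0,
   true, false), (2, 3, false, true), (3, 1, true, true), (3, 2, false, false)]

/-- one step of the product automaton -/
def next (t : Fin 6 × Fin 4 × Fin 4 × Bool × Bool) (b : Bool) : Fin 6 × Fin 4 × Fin 4 × Bool × Bool :=
  (δ6 t.1 b, δ4 t.2.1 b, δ4 t.2.2.1 b, δl t.2.2.2.1 b, δs t.2.2.2.2 b)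

lemma R_closed : ∀ t ∈ R, ∀ b : Bool, next t b ∈ R := by decide +kernel

lemma R_acc : ∀ t ∈ R, t.1 = 0 ↔ t.2 ∈ acc := by decide +kernel

/-- the product state reached by a word -/
def reach (w : List Bool) : Fin 6 × Fin 4 × Fin 4 × Bool × Bool :=
  (List.foldl δ6 0 w, List.foldl δ4 0 w, List.foldl δ4 1 w, List.foldl δl false w,
    List.foldl δs false w)

lemma reach_mem (w : List Bool) : reach w ∈ R := by
  induction w using List.reverseRecOn with
  | nil => decide +kernel
  | append_singleton w b ih =>
    have h := R_closed _ ih b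
    have e : reach (w ++ [b]) = next (reach w) b := by
      simp only [reach, next, List.foldl_append, List.foldl_cons, List.foldl_nil]
    rw [e]
    exact h

/-- Union of the languages belonging to a list of states. -/
def U : List (Fin 4 × Fin 4 × Bool × Bool) → Set (List Bool)
  | [] => ∅
  | t :: ts => (E0 t.1 ∩ (E1 t.2.1 ∩ (El t.2.2.1 ∩ Es t.2.2.2))) ∪ U ts

lemma mem_U (L : List (Fin 4 × Fin 4 × Bool × Bool)) (w : List Bool) :
    w ∈ U L ↔ (reach w).2 ∈ L := by
  induction L with
  | nil => simp [U]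
  | cons t ts ih =>
    rw [List.mem_cons, ← ih, U, Set.mem_union, E0_eq, E1_eq, El_eq, Es_eq]
    simp only [Set.mem_inter_iff, Set.mem_ofPred_eq, reach, Prod.ext_iff]

/-- `A₂` as a union of intersections. -/
theorem A2_eq : st P = U acc := by
  have h : st P = {w | List.foldl δ6 0 w = 0} := E6_eq 0
  rw [h]
  ext w
  rw [mem_U, ← R_acc _ (reach_mem w)]
  rfl

/-- Languages of height at most one. -/
abbrev H1 : Set (Set (List Bool)) := Cl (st '' Cl ∅)

lemma st_mem_H1 {L : Set (List Bool)} (h : L ∈ Cl ∅) : st L ∈ H1 := base_mem ⟨L, h, rfl⟩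

lemma M2_mem (G : Set (Set (List Bool))) : M2 ∈ Cl G :=
  cat_mem (cat_mem (A_mem G) true_mem) (st_letter_mem G false)

lemma M3_mem (G : Set (Set (List Bool))) : M3 ∈ Cl G :=
  cat_mem (cat_mem (M2_mem G) true_mem) (st_letter_mem G false)

lemma K0_mem (G : Set (Set (List Bool))) : K0 ∈ Cl G :=
  union_mem (cat_mem (A_mem G) false_mem) (cat_mem (M3_mem G) true_mem)

lemma N2_mem (G : Set (Set (List Bool))) : N2 ∈ Cl G :=
  cat_mem true_mem (st_letter_mem G false)

lemma N3_mem (G : Set (Set (List Bool))) : N3 ∈ Cl G :=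
  cat_mem (cat_mem (N2_mem G) true_mem) (st_letter_mem G false)

lemma N0_mem (G : Set (Set (List Bool))) : N0 ∈ Cl G :=
  union_mem false_mem (cat_mem (N3_mem G) true_mem)

lemma K1_mem (G : Set (Set (List Bool))) : K1 ∈ Cl G := cat_mem (N0_mem G) (A_mem G)

lemma E0_mem (q : Fin 4) : E0 q ∈ H1 := by
  fin_cases q
  · exact st_mem_H1 (K0_mem _)
  · exact cat_mem (st_mem_H1 (K0_mem _)) (A_mem _)
  · exact cat_mem (st_mem_H1 (K0_mem _)) (M2_mem _)
  · exact cat_mem (st_mem_H1 (K0_mem _)) (M3_mem _)

lemma E1_mem (q : Fin 4) : E1 q ∈ H1 := by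
  fin_cases q
  · exact cat_mem (st_mem_H1 (K1_mem _)) (N0_mem _)
  · exact st_mem_H1 (K1_mem _)
  · exact cat_mem (st_mem_H1 (K1_mem _)) (N2_mem _)
  · exact cat_mem (st_mem_H1 (K1_mem _)) (N3_mem _)

lemma El_mem (q : Bool) : El q ∈ H1 := by
  cases q
  · exact st_mem_H1 (cat_mem (A_mem _) (A_mem _))
  · exact cat_mem (st_mem_H1 (cat_mem (A_mem _) (A_mem _))) (A_mem _)

lemma Ks_mem (G : Set (Set (List Bool))) : Ks ∈ Cl G :=
  union_mem true_mem (cat_mem (cat_mem false_mem (st_letter_mem G true)) false_mem)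

lemma Es_mem (q : Bool) : Es q ∈ H1 := by
  cases q
  · exact st_mem_H1 (Ks_mem _)
  · exact cat_mem (st_mem_H1 (Ks_mem _)) (cat_mem false_mem (st_letter_mem _ true))

lemma U_mem (L : List (Fin 4 × Fin 4 × Bool × Bool)) : U L ∈ H1 := by
  induction L with
  | nil => exact empty_mem
  | cons t ts ih =>
    exact union_mem (inter_mem (E0_mem _) (inter_mem (E1_mem _) (inter_mem (El_mem _) (Es_mem _)))) ih

/-- Thérien's language `A₂` has generalized star height at most one. -/
theorem A2_mem : st P ∈ H1 := by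
  rw [A2_eq]
  exact U_mem acc

end Pool.Agent.H815R3.StarHeight
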